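import Pool.Agent.Helper12.GM.Main

open scoped UpperHalfPlane MatrixGroups Topology
open UpperHalfPlane Filter MeasureTheory

namespace Pool.Agent.Results.MP_ab9fec_gt.GreenNeverHyperbolic

/-- the group `PSL(2, ℝ)` -/
abbrev PSL2R : Type := Matrix.ProjectiveSpecialLinearGroup (Fin 2) ℝ

/-- A (marked) hyperbolic metric on the closed surface with fundamental group `Γ`: a homomorphism
`ρ : Γ → PSL(2, ℝ)` for which `Γ` acts properly discontinuously and cocompactly on the hyperbolic
plane `ℍ` and all whose nontrivial elements are hyperbolic (in particular `ρ` is injective, its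
image is a discrete cocompact torsion-free subgroup and the surface is `ℍ / ρ(Γ)`). -/
structure HyperbolicMetric (Γ : Type) [Group Γ] where
  /-- the holonomy -/
  ρ : Γ →* PSL2R
  discrete : ∀ r : ℝ, {g : Γ | ∃ A : SL(2, ℝ), (A : PSL2R) = ρ g ∧
    dist (I : ℍ) (A • (I : ℍ)) ≤ r}.Finite
  cocompact : ∃ r : ℝ, ∀ z : ℍ, ∃ (g : Γ) (A : SL(2, ℝ)), (A : PSL2R) = ρ g ∧
    dist z (A • (I : ℍ)) ≤ r
  hyperbolic : ∀ g : Γ, g ≠ 1 → ∀ A : SL(2, ℝ), (A : PSL2R) = ρ g → 2 < |A.1.trace|

variable {Γ : Type} [Group Γ]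

/-- the length of the closed geodesic in the free homotopy class of `g`: the translation length
`inf_z dist (z, ρ(g) z)` -/
noncomputable def HyperbolicMetric.length (m : HyperbolicMetric Γ) (g : Γ) : ℝ :=
  ⨅ z : ℍ, dist z (Quotient.out (m.ρ g) • z)

/-- admissible probability measures: finite support, containing a symmetric generating set -/
def Admissible (μ : PMF Γ) : Prop :=
  μ.support.Finite ∧
    ∃ S : Set Γ, S ⊆ μ.support ∧ (∀ s ∈ S, s⁻¹ ∈ S) ∧ Subgroup.closure S = ⊤

/-- the position `w_n = g_1 ⋯ g_n` after `n` steps, for the increments `g_{k+1} = ω k` -/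
def walk (ω : ℕ → Γ) : ℕ → Γ
  | 0 => 1
  | n + 1 => walk ω n * ω n

/-- the probability that `w_n x = y` for some `n`, the increments being i.i.d. with law `μ` -/
noncomputable def hitProb (μ : PMF Γ) (x y : Γ) : ℝ :=
  letI : MeasurableSpace Γ := ⊤
  (Measure.infinitePi (fun _ : ℕ => μ.toMeasure) {ω : ℕ → Γ | ∃ n, walk ω n * x = y}).toReal

/-- the Green metric `d_μ` -/
noncomputable def greenMetric (μ : PMF Γ) (x y : Γ) : ℝ := -Real.log (hitProb μ x y)

theorem mk_eq {A B : SL(2, ℝ)} (h : (A : PSL2R) = (B : PSL2R)) : B = A ∨ B = -A := by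
  have h1 : A⁻¹ * B ∈ Subgroup.center SL(2, ℝ) := QuotientGroup.eq.mp h
  obtain ⟨r, hr, hs⟩ := Matrix.SpecialLinearGroup.mem_center_iff.mp h1
  simp only [Fintype.card_fin] at hr
  have hr2 : r = 1 ∨ r = -1 := by
    have : (r - 1) * (r + 1) = 0 := by linear_combination hr
    rcases mul_eq_zero.mp this with h | h
    · left; linarith
    · right; linarith
  rcases hr2 with rfl | rfl
  · left
    have : A⁻¹ * B = 1 := by
      apply Subtype.ext; rw [← hs]; simp
    exact (inv_mul_eq_one.mp this).symm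
  · right
    have : A⁻¹ * B = -1 := by
      apply Subtype.ext; rw [← hs]; ext i j; fin_cases i <;> fin_cases j <;> simp
    have h3 : B = A * (-1) := by rw [← this, mul_inv_cancel_left]
    rw [h3, mul_neg, mul_one]

/-- lifts to `SL(2, ℝ)` -/
noncomputable def toFuchs (m : HyperbolicMetric Γ) : Pool.Agent.Helper12.GM.Fuchs Γ where
  M g := Quotient.out (m.ρ g)
  mul' g h := by
    have e : ((Quotient.out (m.ρ g) * Quotient.out (m.ρ h) : SL(2, ℝ)) : PSL2R) =
        ((Quotient.out (m.ρ (g * h)) : SL(2, ℝ)) : PSL2R) := by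
      rw [QuotientGroup.mk_mul]
      have e1 : ∀ x : PSL2R, ((Quotient.out x : SL(2, ℝ)) : PSL2R) = x := fun x =>
        Quotient.out_eq' x
      rw [e1, e1, e1, map_mul]
    exact mk_eq e
  disc r := by
    refine (m.discrete r).subset fun g hg => ?_
    exact ⟨Quotient.out (m.ρ g), Quotient.out_eq' _, hg⟩
  cocpt := by
    obtain ⟨r, hr⟩ := m.cocompact
    refine ⟨r, fun z => ?_⟩
    obtain ⟨g, A, h1, h2⟩ := hr z
    refine ⟨g, ?_⟩
    have e : ((Quotient.out (m.ρ g) : SL(2, ℝ)) : PSL2R) = (A : PSL2R) :=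
      (Quotient.out_eq' _).trans h1.symm
    rcases mk_eq e with h3 | h3
    · rwa [h3] at h2
    · rwa [h3, Pool.Agent.Helper12.GM.neg_smul_H] at h2
  hyp g hg := m.hyperbolic g hg _ (Quotient.out_eq' _)

/-- **Theorem.** For every closed hyperbolic surface group `Γ`, every admissible `μ` and every
hyperbolic metric `m`, the stable length `ℓ` of the Green metric of `μ` exists and its
symmetrization is not the length function of `m`. -/
theorem result {Γ : Type} [Group Γ] (m : HyperbolicMetric Γ) (μ : PMF Γ) (hμ : Admissible μ) :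
    ∃ ℓ : Γ → ℝ,
      (∀ g x : Γ, Tendsto (fun n : ℕ => greenMetric μ x (g ^ n * x) / n) atTop (𝓝 (ℓ g))) ∧
      ∃ g : Γ, g ≠ 1 ∧ (ℓ g + ℓ g⁻¹) / 2 ≠ m.length g := by
  have hw : ∀ (ω : ℕ → Γ) (n : ℕ), walk ω n = Pool.Agent.Helper12.GM.wpos ω n := by
    intro ω n
    induction n with
    | zero => rfl
    | succ n ih => simp only [walk, Pool.Agent.Helper12.GM.wpos, ih]
  obtain ⟨ℓ, h1, h2⟩ := Pool.Agent.Helper12.GM.main_final (toFuchs m) μ ⟨hμ.1, hμ.2⟩
  refine ⟨ℓ, fun g x => ?_, h2⟩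
  have e : ∀ y, greenMetric μ x y = Pool.Agent.Helper12.GM.dgreen μ x y := by
    intro y
    unfold greenMetric Pool.Agent.Helper12.GM.dgreen hitProb Pool.Agent.Helper12.GM.law
    simp only [hw]
  simp only [e]
  exact h1 g x

end Pool.Agent.Results.MP_ab9fec_gt.GreenNeverHyperbolic
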